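import Pool.Agent.U29.EU.Stm

set_option autoImplicit false

/-!
Package VEC of project EU (MP_b0497c_an): the vector of the monomials of a triad is long.
-/

namespace Pool.Agent.U324.EU.VEC

open Pool.Agent.N983.RT Pool.Agent.U136.DS Pool.Agent.U29.EU Finset

/-- a linear form -/
def F (j : ℕ) (k : Wv) : ℤ := k 0 + j * k 1 + (j : ℤ) ^ 2 * k 2

lemma interp {x0 x1 x2 : ℝ} {a b c : ℕ} (ha : a < 7) (hb : b < 7) (hab : a ≠ b)
    (hac : a ≠ c) (hbc : b ≠ c) {t : ℝ} (h1 : |x0 + a * x1 + (a:ℝ) ^ 2 * x2| ≤ t)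
    (h2 : |x0 + b * x1 + (b:ℝ) ^ 2 * x2| ≤ t) (h3 : |x0 + c * x1 + (c:ℝ) ^ 2 * x2| ≤ t) :
    |x2| ≤ 4 * t ∧ |x1| ≤ 50 * t ∧ |x0| ≤ 445 * t := by
  have ht : 0 ≤ t := (abs_nonneg _).trans h1
  have hdist : ∀ p q : ℕ, p ≠ q → (1:ℝ) ≤ |(p:ℝ) - q| := by
    intro p q hpq
    have : (1:ℤ) ≤ |(p:ℤ) - q| := by
      apply Int.one_le_abs
      omega
    exact_mod_cast this
  have hgen : ∀ p q : ℕ, p ≠ q → |x0 + p * x1 + (p:ℝ) ^ 2 * x2| ≤ t →
      |x0 + q * x1 + (q:ℝ) ^ 2 * x2| ≤ t → |x1 + (p + q) * x2| ≤ 2 * t := by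
    intro p q hpq hp hq
    have e1 : ((p:ℝ) - q) * (x1 + (p + q) * x2) =
        (x0 + p * x1 + (p:ℝ) ^ 2 * x2) - (x0 + q * x1 + (q:ℝ) ^ 2 * x2) := by ring
    have e2 : |(p:ℝ) - q| * |x1 + (p + q) * x2| ≤ 2 * t := by
      rw [← abs_mul, e1]
      exact (abs_sub _ _).trans (by linarith)
    have := hdist p q hpq
    nlinarith [abs_nonneg (x1 + (p + q) * x2)]
  have hA := hgen a b hab h1 h2
  have hB := hgen a c hac h1 h3
  have hx2 : |x2| ≤ 4 * t := by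
    have e1 : ((b:ℝ) - c) * x2 = (x1 + (a + b) * x2) - (x1 + (a + c) * x2) := by ring
    have e2 : |(b:ℝ) - c| * |x2| ≤ 4 * t := by
      rw [← abs_mul, e1]
      exact (abs_sub _ _).trans (by linarith)
    have := hdist b c hbc
    nlinarith [abs_nonneg x2]
  have ha6 : (a:ℝ) ≤ 6 := by exact_mod_cast (by omega : a ≤ 6)
  have hb6 : (b:ℝ) ≤ 6 := by exact_mod_cast (by omega : b ≤ 6)
  have ha0 : (0:ℝ) ≤ a := Nat.cast_nonneg a
  have hb0 : (0:ℝ) ≤ b := Nat.cast_nonneg b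
  have hx1 : |x1| ≤ 50 * t := by
    have e1 : x1 = (x1 + (a + b) * x2) - (a + b) * x2 := by ring
    rw [e1]
    refine (abs_sub _ _).trans ?_
    rw [abs_mul ((a:ℝ) + b) x2, abs_of_nonneg (by positivity : (0:ℝ) ≤ (a:ℝ) + b)]
    have : ((a:ℝ) + b) * |x2| ≤ 12 * (4 * t) := by
      apply mul_le_mul _ hx2 (abs_nonneg _) (by norm_num)
      linarith
    linarith
  refine ⟨hx2, hx1, ?_⟩
  have e1 : x0 = (x0 + a * x1 + (a:ℝ) ^ 2 * x2) - (a * x1) - ((a:ℝ) ^ 2 * x2) := by ring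
  rw [e1]
  refine (abs_sub _ _).trans ?_
  have h5 : |(x0 + a * x1 + (a:ℝ) ^ 2 * x2) - (a * x1)| ≤ t + 6 * (50 * t) := by
    refine (abs_sub _ _).trans ?_
    rw [abs_mul (a:ℝ) x1, abs_of_nonneg ha0]
    have : (a:ℝ) * |x1| ≤ 6 * (50 * t) := mul_le_mul ha6 hx1 (abs_nonneg _) (by norm_num)
    linarith
  have h6 : |(a:ℝ) ^ 2 * x2| ≤ 36 * (4 * t) := by
    rw [abs_mul, abs_of_nonneg (by positivity : (0:ℝ) ≤ (a:ℝ) ^ 2)]
    apply mul_le_mul _ hx2 (abs_nonneg _) (by norm_num)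
    nlinarith
  linarith

/-- the constant -/
def A : ℝ := 3 * 445 ^ 2

lemma bad_card (w : Wv) :
    ((Finset.range 7).filter (fun j => A * (F j w : ℝ) ^ 2 < nsq w)).card ≤ 2 := by
  by_contra hcon
  push Not at hcon
  obtain ⟨a, b, c, ha, hb, hc, hab, hac, hbc⟩ := Finset.two_lt_card_iff.1 hcon
  simp only [Finset.mem_filter, Finset.mem_range] at ha hb hc
  obtain ⟨ha7, ha⟩ := ha
  obtain ⟨hb7, hb⟩ := hb
  obtain ⟨hc7, hc⟩ := hc
  set t : ℝ := max (|(F a w : ℝ)|) (max (|(F b w : ℝ)|) (|(F c w : ℝ)|)) with ht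
  have h1 : |(w 0 : ℝ) + a * w 1 + (a:ℝ) ^ 2 * w 2| ≤ t := by
    have : (F a w : ℝ) = (w 0 : ℝ) + a * w 1 + (a:ℝ) ^ 2 * w 2 := by simp [F]
    rw [← this]; exact le_max_left _ _
  have h2 : |(w 0 : ℝ) + b * w 1 + (b:ℝ) ^ 2 * w 2| ≤ t := by
    have : (F b w : ℝ) = (w 0 : ℝ) + b * w 1 + (b:ℝ) ^ 2 * w 2 := by simp [F]
    rw [← this]; exact (le_max_left _ _).trans (le_max_right _ _)
  have h3 : |(w 0 : ℝ) + c * w 1 + (c:ℝ) ^ 2 * w 2| ≤ t := by
    have : (F c w : ℝ) = (w 0 : ℝ) + c * w 1 + (c:ℝ) ^ 2 * w 2 := by simp [F]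
    rw [← this]; exact (le_max_right _ _).trans (le_max_right _ _)
  obtain ⟨i2, i1, i0⟩ := interp ha7 hb7 hab hac hbc h1 h2 h3
  have ht0 : 0 ≤ t := (abs_nonneg _).trans h1
  have hn : nsq w ≤ A * t ^ 2 := by
    unfold nsq A
    rw [Fin.sum_univ_three]
    have j0 : (w 0 : ℝ) ^ 2 ≤ (445 * t) ^ 2 := sq_le_sq' (abs_le.1 i0).1 (abs_le.1 i0).2
    have j1 : (w 1 : ℝ) ^ 2 ≤ (50 * t) ^ 2 := sq_le_sq' (abs_le.1 i1).1 (abs_le.1 i1).2
    have j2 : (w 2 : ℝ) ^ 2 ≤ (4 * t) ^ 2 := sq_le_sq' (abs_le.1 i2).1 (abs_le.1 i2).2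
    nlinarith [sq_nonneg t]
  have ht2 : A * t ^ 2 < nsq w := by
    rcases max_choice (|(F a w : ℝ)|) (max (|(F b w : ℝ)|) (|(F c w : ℝ)|)) with h | h
    · rw [ht, h, sq_abs]; exact ha
    · rcases max_choice (|(F b w : ℝ)|) (|(F c w : ℝ)|) with h' | h'
      · rw [ht, h, h', sq_abs]; exact hb
      · rw [ht, h, h', sq_abs]; exact hc
  linarith

lemma good_j (k l m : Wv) : ∃ j < 7, nsq k ≤ A * (F j k : ℝ) ^ 2 ∧ nsq l ≤ A * (F j l : ℝ) ^ 2 ∧
    nsq m ≤ A * (F j m : ℝ) ^ 2 := by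
  by_contra hcon
  push Not at hcon
  have hsub : Finset.range 7 ⊆
      (((Finset.range 7).filter (fun j => A * (F j k : ℝ) ^ 2 < nsq k)) ∪
      ((Finset.range 7).filter (fun j => A * (F j l : ℝ) ^ 2 < nsq l))) ∪
      ((Finset.range 7).filter (fun j => A * (F j m : ℝ) ^ 2 < nsq m)) := by
    intro j hj
    have hj7 := Finset.mem_range.1 hj
    simp only [Finset.mem_union, Finset.mem_filter, Finset.mem_range]
    by_cases h1 : A * (F j k : ℝ) ^ 2 < nsq k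
    · exact Or.inl (Or.inl ⟨hj7, h1⟩)
    · by_cases h2 : A * (F j l : ℝ) ^ 2 < nsq l
      · exact Or.inl (Or.inr ⟨hj7, h2⟩)
      · exact Or.inr ⟨hj7, hcon j hj7 (not_lt.1 h1) (not_lt.1 h2)⟩
  have h1 := Finset.card_le_card hsub
  rw [Finset.card_range] at h1
  have h2 := h1.trans (Finset.card_union_le _ _)
  have h3 := Finset.card_union_le
    ((Finset.range 7).filter (fun j => A * (F j k : ℝ) ^ 2 < nsq k))
    ((Finset.range 7).filter (fun j => A * (F j l : ℝ) ^ 2 < nsq l))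
  have h4 := bad_card k
  have h5 := bad_card l
  have h6 := bad_card m
  omega

/-! ### Sums of three odd powers -/

lemma core {x y : ℝ} (hx : 1 ≤ x) (hy : 1 ≤ y) {e : ℕ} (he : 1 ≤ e) :
    (x + y) ^ (2 * e) ≤ 4 ^ e * ((x + y) ^ (2 * e + 1) - x ^ (2 * e + 1) - y ^ (2 * e + 1)) := by
  have hx0 : 0 ≤ x := by linarith
  have hy0 : 0 ≤ y := by linarith
  have h1 : x ^ (2 * e) + y ^ (2 * e) ≤ (x + y) ^ (2 * e) := pow_add_pow_le hx0 hy0 (by omega)
  have h2 : (x + y) ^ (2 * e) ≤ 2 ^ (2 * e - 1) * (x ^ (2 * e) + y ^ (2 * e)) :=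
    add_pow_le hx0 hy0 _
  have h3 : (2:ℝ) ^ (2 * e - 1) ≤ 4 ^ e := by
    rw [show (4:ℝ) = 2 ^ 2 by norm_num, ← pow_mul]
    exact pow_le_pow_right₀ (by norm_num) (by omega)
  have hX : 0 ≤ x ^ (2 * e) := by positivity
  have hY : 0 ≤ y ^ (2 * e) := by positivity
  have h4 : x ^ (2 * e) + y ^ (2 * e) ≤
      (x + y) ^ (2 * e + 1) - x ^ (2 * e + 1) - y ^ (2 * e + 1) := by
    rw [pow_succ, pow_succ, pow_succ]
    have h5 : (x ^ (2 * e) + y ^ (2 * e)) * (x + y) ≤ (x + y) ^ (2 * e) * (x + y) := by gcongr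
    nlinarith
  calc (x + y) ^ (2 * e) ≤ 2 ^ (2 * e - 1) * (x ^ (2 * e) + y ^ (2 * e)) := h2
    _ ≤ 4 ^ e * (x ^ (2 * e) + y ^ (2 * e)) := by gcongr
    _ ≤ _ := by gcongr

lemma tri_pos {x y z : ℝ} (hx : 1 ≤ x) (hy : 1 ≤ |y|) (hz : 1 ≤ |z|) (h : x + y + z = 0) {e : ℕ}
    (he : 1 ≤ e) : x ^ (2 * e) ≤ 4 ^ e * |x ^ (2 * e + 1) + y ^ (2 * e + 1) + z ^ (2 * e + 1)| := by
  have hodd : Odd (2 * e + 1) := ⟨e, rfl⟩
  rcases le_abs.1 hy with hy1 | hy1
  · -- x, y positive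
    have hc := core hx hy1 he
    have hz' : z = -(x + y) := by linarith
    rw [hz', hodd.neg_pow]
    calc x ^ (2 * e) ≤ (x + y) ^ (2 * e) := by gcongr; linarith
      _ ≤ _ := hc
      _ ≤ _ := by
        gcongr
        rw [← abs_neg]
        refine le_trans (le_of_eq ?_) (le_abs_self _)
        ring
  · rcases le_abs.1 hz with hz1 | hz1
    · have hc := core hx hz1 he
      have hy' : y = -(x + z) := by linarith
      rw [hy', hodd.neg_pow]
      calc x ^ (2 * e) ≤ (x + z) ^ (2 * e) := by gcongr; linarith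
        _ ≤ _ := hc
        _ ≤ _ := by
          gcongr
          rw [← abs_neg]
          refine le_trans (le_of_eq ?_) (le_abs_self _)
          ring
    · have hc := core hy1 hz1 he
      have hx' : x = -y + -z := by linarith
      rw [hodd.neg_pow, hodd.neg_pow] at hc
      rw [hx']
      refine hc.trans ?_
      gcongr
      refine le_trans (le_of_eq ?_) (le_abs_self _)
      ring

lemma tri {x y z : ℝ} (hx : 1 ≤ |x|) (hy : 1 ≤ |y|) (hz : 1 ≤ |z|) (h : x + y + z = 0) {e : ℕ}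
    (he : 1 ≤ e) : x ^ (2 * e) ≤ 4 ^ e * |x ^ (2 * e + 1) + y ^ (2 * e + 1) + z ^ (2 * e + 1)| := by
  have hodd : Odd (2 * e + 1) := ⟨e, rfl⟩
  have heven : Even (2 * e) := ⟨e, by ring⟩
  rcases le_abs.1 hx with hx1 | hx1
  · exact tri_pos hx1 hy hz h he
  · have h1 := tri_pos (x := -x) (y := -y) (z := -z) hx1 (by rwa [abs_neg]) (by rwa [abs_neg])
      (by linarith) he
    rw [heven.neg_pow, hodd.neg_pow, hodd.neg_pow, hodd.neg_pow] at h1
    rw [← abs_neg]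
    refine h1.trans (le_of_eq ?_)
    congr 2
    ring

/-! ### The multinomial theorem -/

/-- the coefficient -/
noncomputable def cf (j _d : ℕ) (κ : Fin 3 → ℕ) : ℝ :=
  (Nat.multinomial Finset.univ κ : ℝ) * ∏ i : Fin 3, ((j:ℝ) ^ (i : ℕ)) ^ κ i

/-- the monomial -/
def mo (κ : Fin 3 → ℕ) (k : Wv) : ℝ := ∏ i, (k i : ℝ) ^ κ i

lemma F_cast (j : ℕ) (k : Wv) : (F j k : ℝ) = ∑ i : Fin 3, (j:ℝ) ^ (i : ℕ) * (k i : ℝ) := by
  rw [Fin.sum_univ_three]
  simp [F]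

lemma F_pow (j d : ℕ) (k : Wv) : (F j k : ℝ) ^ d =
    ∑ κ ∈ Finset.piAntidiag (Finset.univ : Finset (Fin 3)) d, cf j d κ * mo κ k := by
  rw [F_cast, Finset.sum_pow_eq_sum_piAntidiag]
  refine Finset.sum_congr rfl fun κ _ => ?_
  unfold cf mo
  rw [mul_assoc, ← Finset.prod_mul_distrib]
  congr 1
  refine Finset.prod_congr rfl fun i _ => ?_
  rw [mul_pow]

lemma cf_sum (j d : ℕ) (hj : j < 7) :
    ∑ κ ∈ Finset.piAntidiag (Finset.univ : Finset (Fin 3)) d, cf j d κ ≤ 43 ^ d := by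
  have h := Finset.sum_pow_eq_sum_piAntidiag (Finset.univ : Finset (Fin 3))
    (fun i => (j:ℝ) ^ (i : ℕ)) d
  unfold cf
  rw [← h, Fin.sum_univ_three]
  have hj6 : (j:ℝ) ≤ 6 := by exact_mod_cast (by omega : j ≤ 6)
  have hj0 : (0:ℝ) ≤ j := Nat.cast_nonneg j
  apply pow_le_pow_left₀ (by positivity)
  simp
  nlinarith

lemma cf_nonneg (j d : ℕ) (κ : Fin 3 → ℕ) : 0 ≤ cf j d κ := by
  unfold cf; positivity

lemma mi_of {d : ℕ} {κ : Fin 3 → ℕ}
    (hκ : κ ∈ Finset.piAntidiag (Finset.univ : Finset (Fin 3)) d) :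
    ∃ β : Mi d, ∀ k, mon β k = mo κ k := by
  rw [Finset.mem_piAntidiag] at hκ
  obtain ⟨hsum, -⟩ := hκ
  have hle : ∀ i, κ i < d + 1 := by
    intro i
    have : κ i ≤ Finset.univ.sum κ :=
      Finset.single_le_sum (fun _ _ => Nat.zero_le _) (Finset.mem_univ i)
    omega
  refine ⟨⟨fun i => ⟨κ i, hle i⟩, hsum⟩, fun k => rfl⟩

lemma nsq_pos {k : Wv} (hk : k ≠ 0) : 0 < nsq k := by
  unfold nsq
  obtain ⟨i, hi⟩ := Function.ne_iff.1 hk
  have h1 : 0 < (k i : ℝ) ^ 2 := by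
    have : (k i : ℝ) ≠ 0 := by exact_mod_cast hi
    positivity
  exact lt_of_lt_of_le h1
    (Finset.single_le_sum (f := fun i => (k i : ℝ) ^ 2) (fun _ _ => by positivity)
      (Finset.mem_univ i))

theorem t_VEC : S_VEC := by
  intro d hd hd3
  obtain ⟨e, rfl⟩ := hd
  have he : 1 ≤ e := by omega
  have hA : 0 < A := by unfold A; norm_num
  refine ⟨1 / (2 * (4 * A) ^ e * 43 ^ (2 * e + 1)), by positivity, ?_⟩
  intro k l m hk hl hm hsum
  have hexp : mx k l m ^ ((((2 * e + 1 : ℕ) : ℝ) - 1) / 2) = mx k l m ^ e := by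
    rw [← Real.rpow_natCast]
    congr 1
    push_cast
    ring
  rw [hexp]
  have hmx0 : 0 < mx k l m := lt_of_lt_of_le (nsq_pos hk) (le_max_left _ _)
  obtain ⟨j, hj, h1, h2, h3⟩ := good_j k l m
  -- the three values
  have hone : ∀ w : Wv, w ≠ 0 → nsq w ≤ A * (F j w : ℝ) ^ 2 → 1 ≤ |(F j w : ℝ)| := by
    intro w hw h
    have h0 : F j w ≠ 0 := by
      intro h0
      rw [h0] at h
      have := nsq_pos hw
      norm_num at h
      linarith
    have : (1:ℤ) ≤ |F j w| := Int.one_le_abs h0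
    exact_mod_cast this
  have hx := hone k hk h1
  have hy := hone l hl h2
  have hz := hone m hm h3
  have hFsum : (F j k : ℝ) + F j l + F j m = 0 := by
    have e0 : k 0 + l 0 + m 0 = 0 := by simpa using congrFun hsum 0
    have e1 : k 1 + l 1 + m 1 = 0 := by simpa using congrFun hsum 1
    have e2 : k 2 + l 2 + m 2 = 0 := by simpa using congrFun hsum 2
    have : F j k + F j l + F j m = 0 := by
      unfold F
      linear_combination e0 + (j:ℤ) * e1 + (j:ℤ) ^ 2 * e2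
    exact_mod_cast this
  set D : ℝ := |(F j k : ℝ) ^ (2 * e + 1) + (F j l : ℝ) ^ (2 * e + 1) +
    (F j m : ℝ) ^ (2 * e + 1)| with hD
  have hk' : (F j k : ℝ) ^ (2 * e) ≤ 4 ^ e * D := tri hx hy hz hFsum he
  have hl' : (F j l : ℝ) ^ (2 * e) ≤ 4 ^ e * D := by
    have := tri hy hx hz (by linarith) he
    rw [hD, add_comm ((F j k : ℝ) ^ (2 * e + 1))]
    exact this
  have hm' : (F j m : ℝ) ^ (2 * e) ≤ 4 ^ e * D := by
    have := tri hz hx hy (by linarith) he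
    refine this.trans (le_of_eq ?_)
    rw [hD]
    congr 2
    ring
  have hmax : mx k l m ^ e ≤ (4 * A) ^ e * D := by
    have hgen : ∀ w : Wv, mx k l m = nsq w → nsq w ≤ A * (F j w : ℝ) ^ 2 →
        (F j w : ℝ) ^ (2 * e) ≤ 4 ^ e * D → mx k l m ^ e ≤ (4 * A) ^ e * D := by
      intro w hw h4 h5
      rw [hw]
      have h0 : 0 ≤ nsq w := by rw [← hw]; exact hmx0.le
      calc nsq w ^ e ≤ (A * (F j w : ℝ) ^ 2) ^ e := by gcongr
        _ = A ^ e * (F j w : ℝ) ^ (2 * e) := by rw [mul_pow, ← pow_mul]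
        _ ≤ A ^ e * (4 ^ e * D) := by gcongr
        _ = (4 * A) ^ e * D := by rw [mul_pow]; ring
    rcases max_choice (nsq k) (max (nsq l) (nsq m)) with h | h
    · exact hgen k h h1 hk'
    · rcases max_choice (nsq l) (nsq m) with h' | h'
      · exact hgen l (h.trans h') h2 hl'
      · exact hgen m (h.trans h') h3 hm'
  -- all monomials small is impossible
  by_contra hcon
  push Not at hcon
  set T : ℝ := 1 / (2 * (4 * A) ^ e * 43 ^ (2 * e + 1)) * mx k l m ^ e with hT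
  have hT0 : 0 < T := by positivity
  have hDle : D ≤ 43 ^ (2 * e + 1) * T := by
    rw [hD, F_pow, F_pow, F_pow, ← Finset.sum_add_distrib, ← Finset.sum_add_distrib]
    refine (Finset.abs_sum_le_sum_abs _ _).trans ?_
    calc ∑ κ ∈ Finset.piAntidiag (Finset.univ : Finset (Fin 3)) (2 * e + 1),
          |cf j (2 * e + 1) κ * mo κ k + cf j (2 * e + 1) κ * mo κ l + cf j (2 * e + 1) κ * mo κ m|
        ≤ ∑ κ ∈ Finset.piAntidiag (Finset.univ : Finset (Fin 3)) (2 * e + 1),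
          cf j (2 * e + 1) κ * T := by
          refine Finset.sum_le_sum fun κ hκ => ?_
          obtain ⟨β, hβ⟩ := mi_of hκ
          have h4 := hcon β
          rw [hβ, hβ, hβ] at h4
          rw [← mul_add, ← mul_add, abs_mul, abs_of_nonneg (cf_nonneg j _ κ)]
          exact mul_le_mul_of_nonneg_left h4.le (cf_nonneg j _ κ)
      _ = (∑ κ ∈ Finset.piAntidiag (Finset.univ : Finset (Fin 3)) (2 * e + 1),
          cf j (2 * e + 1) κ) * T := by rw [Finset.sum_mul]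
      _ ≤ 43 ^ (2 * e + 1) * T := by
          gcongr
          exact cf_sum j _ hj
  have h5 : (4 * A) ^ e * D ≤ (1 / 2) * mx k l m ^ e := by
    calc (4 * A) ^ e * D ≤ (4 * A) ^ e * (43 ^ (2 * e + 1) * T) := by gcongr
      _ = (1 / 2) * mx k l m ^ e := by
        rw [hT]
        field_simp
  have h6 : 0 < mx k l m ^ e := by positivity
  linarith

end Pool.Agent.U324.EU.VEC
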